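import Pool.Agent.Zk72.NS.Shp
import Pool.Agent.Zk72.NS.Arm
import Pool.Agent.Zk36.TT.Pair

/-!
# Stability of the exploration path: stable states and excursions
-/

set_option autoImplicit false

namespace Pool.Agent.Zk96.NS.EXC

open H974 Finset H342P H984P H984N Pool.Agent.Zk36.TT Pool.Agent.Zk72.NS

theorem t_EXC : S_EXC := by
  intro D F e t hD hF he hw ht hnv
  have hF' : flip e F ⊆ D.edges := flip_sub he hF
  rcases tricho D F e with h | ⟨i, h⟩ | ⟨i, l, h⟩
  · exfalso
    obtain ⟨h1, h2⟩ := none_len hD hF h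
    exact hnv ⟨t, by rw [h1]; exact ht, h2 t ht⟩
  · exfalso
    obtain ⟨l, hl⟩ := h.flip hD hF he hw
    obtain ⟨h1, h2, h3, h4⟩ := cut hD hF' hw hl.1 hl.2.1 hl.2.2
    rw [Pool.Agent.Zk36.TT.flip_flip] at h1 h2 h3
    have hll := hl.2.2.1
    rcases le_or_gt t i with h5 | h5
    · exact hnv ⟨t, by have := hl.1; omega, (h2 t h5).symm⟩
    · obtain ⟨m, rfl⟩ : ∃ m, t = i + m := ⟨t - i, by omega⟩
      exact hnv ⟨l + m, by omega, (h3 m (by omega) (by omega)).symm⟩
  · obtain ⟨h1, h2, h3, h4⟩ := cut hD hF hw h.1 h.2.1 h.2.2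
    have hll := h.2.2.1
    have hil := h.1
    refine ⟨i, l, ?_, ?_, h.2.1, h.2.2⟩
    · by_contra h5
      push Not at h5
      exact hnv ⟨t, by omega, h2 t h5⟩
    · by_contra h5
      push Not at h5
      obtain ⟨m, rfl⟩ : ∃ m, t = l + m := ⟨t - l, by omega⟩
      exact hnv ⟨i + m, by omega, h3 m (by omega) (by omega)⟩

theorem t_VIS : S_VIS := by
  intro D U B σ hD hU hB
  have hL : B \ U ⊆ D.edges := Finset.sdiff_subset.trans hB
  have hH : B ∪ U ⊆ D.edges := Finset.union_subset hB hU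
  constructor
  · rintro ⟨h1, h2⟩ F ⟨h3, h4⟩
    exact H443B.visited hD (h4.trans hH) (clu_mono h3 h1) (dclu_mono h4 h2)
  · rintro ⟨k, hk, rfl⟩ ⟨k', hk', he⟩
    refine ⟨(walk_clu hD hL hk).1, ?_⟩
    rw [← he]
    exact (walk_clu hD hH hk').2

theorem nxt_congr {D : Dm} {F G : Finset Edg} {σ : St} (h : ae σ ∈ D.cfg F ↔ ae σ ∈ D.cfg G) :
    nxt (D.cfg F) σ = nxt (D.cfg G) σ := by
  by_cases h1 : ae σ ∈ D.cfg F
  · rw [nxt_open h1, nxt_open (h.1 h1)]
  · rw [nxt_closed h1, nxt_closed (fun h2 => h1 (h.2 h2))]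

theorem vis_next {D : Dm} {F G : Finset Edg} {k : ℕ} (hD : D.Ok) (hG : G ⊆ D.edges)
    (hk : k < D.len F) (hv : D.Vis G (D.walk F k))
    (h : ae (D.walk F k) ∈ D.cfg G ↔ ae (D.walk F k) ∈ D.cfg F) : D.Vis G (D.walk F (k + 1)) := by
  obtain ⟨j, hj, he⟩ := hv
  have hne : j ≠ D.len G := by
    rintro rfl
    rw [len_stop hD hG] at he
    exact ne_stop hk he.symm
  refine ⟨j + 1, by omega, ?_⟩
  rw [H984N.walk_succ, H984N.walk_succ, he]
  exact nxt_congr h

theorem t_FST : S_FST := by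
  intro D U B F k hD hU hB hF hk hs hns
  have hL : B \ U ⊆ D.edges := Finset.sdiff_subset.trans hB
  have hH : B ∪ U ⊆ D.edges := Finset.union_subset hB hU
  by_contra hc
  apply hns
  have hbL : Btw U B (B \ U) := ⟨Finset.Subset.refl _, Finset.sdiff_subset.trans
    Finset.subset_union_left⟩
  have hbH : Btw U B (B ∪ U) := ⟨Finset.sdiff_subset.trans Finset.subset_union_left,
    Finset.Subset.refl _⟩
  obtain ⟨h3, h4⟩ := hF
  have key : ae (D.walk F k) ∈ D.wir ∨ ae (D.walk F k) ∉ U := by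
    by_contra h
    push Not at h
    exact hc ⟨h.2, h.1⟩
  have e1 : ae (D.walk F k) ∈ D.cfg (B \ U) ↔ ae (D.walk F k) ∈ D.cfg F := by
    rcases key with h | h
    · exact ⟨fun _ => Or.inr h, fun _ => Or.inr h⟩
    · constructor
      · rintro (h' | h')
        · exact Or.inl (h3 h')
        · exact Or.inr h'
      · rintro (h' | h')
        · left
          have := h4 h'
          rw [Finset.mem_union] at this
          exact Finset.mem_coe.2 (Finset.mem_sdiff.2 ⟨this.resolve_right h, h⟩)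
        · exact Or.inr h'
  have e2 : ae (D.walk F k) ∈ D.cfg (B ∪ U) ↔ ae (D.walk F k) ∈ D.cfg F := by
    rcases key with h | h
    · exact ⟨fun _ => Or.inr h, fun _ => Or.inr h⟩
    · constructor
      · rintro (h' | h')
        · left
          have h'' := Finset.mem_coe.1 h'
          rw [Finset.mem_union] at h''
          exact h3 (Finset.mem_sdiff.2 ⟨h''.resolve_right h, h⟩)
        · exact Or.inr h'
      · rintro (h' | h')
        · exact Or.inl (h4 h')
        · exact Or.inr h'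
  have v := t_VIS D U B (D.walk F k) hD hU hB
  have v' := t_VIS D U B (D.walk F (k + 1)) hD hU hB
  exact v'.2 (vis_next hD hL hk (v.1 hs _ hbL) e1) (vis_next hD hH hk (v.1 hs _ hbH) e2)

end Pool.Agent.Zk96.NS.EXC
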