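import Pool.Agent.Zk72.NS.Stm

/-! Module SUM for MP_fe58d8_pr: sum over the vertices of a rectangle. -/

set_option autoImplicit false

namespace Pool.Agent.Zk96.NS

open Finset H984N

theorem one_step (s : ℝ) (hs : 0 < s) (hs1 : s ≤ 1) (k : ℕ) :
    ((k : ℝ) + 1) ^ (s - 1) ≤ (((k : ℝ) + 1) ^ s - (k : ℝ) ^ s) / s := by
  have h1 : (0 : ℝ) < (k : ℝ) + 1 := by positivity
  have h2 : (1 + (-1 / ((k : ℝ) + 1))) ^ s ≤ 1 + s * (-1 / ((k : ℝ) + 1)) := by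
    apply rpow_one_add_le_one_add_mul_self _ hs.le hs1
    rw [le_div_iff₀ h1]
    have : (0 : ℝ) ≤ k := by positivity
    linarith
  have h3 : (k : ℝ) = ((k : ℝ) + 1) * (1 + (-1 / ((k : ℝ) + 1))) := by
    field_simp
    ring
  have h4 : (0 : ℝ) ≤ 1 + (-1 / ((k : ℝ) + 1)) := by
    have : 1 / ((k : ℝ) + 1) ≤ 1 := by
      rw [div_le_one h1]
      have : (0 : ℝ) ≤ k := by positivity
      linarith
    have e : (-1 : ℝ) / ((k : ℝ) + 1) = -(1 / ((k : ℝ) + 1)) := by ring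
    rw [e]
    linarith
  have h5 : (k : ℝ) ^ s ≤ ((k : ℝ) + 1) ^ s * (1 + s * (-1 / ((k : ℝ) + 1))) := by
    calc (k : ℝ) ^ s = (((k : ℝ) + 1) * (1 + (-1 / ((k : ℝ) + 1)))) ^ s := by rw [← h3]
      _ = ((k : ℝ) + 1) ^ s * (1 + (-1 / ((k : ℝ) + 1))) ^ s := Real.mul_rpow h1.le h4
      _ ≤ _ := mul_le_mul_of_nonneg_left h2 (Real.rpow_nonneg h1.le _)
  rw [le_div_iff₀ hs, Real.rpow_sub_one h1.ne']
  have h6 : ((k : ℝ) + 1) ^ s * (1 + s * (-1 / ((k : ℝ) + 1))) =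
      ((k : ℝ) + 1) ^ s - ((k : ℝ) + 1) ^ s / ((k : ℝ) + 1) * s := by
    field_simp
    ring
  rw [h6] at h5
  linarith

theorem sum_range_rpow (s : ℝ) (hs : 0 < s) (hs1 : s ≤ 1) (m : ℕ) :
    ∑ k ∈ range m, ((k : ℝ) + 1) ^ (s - 1) ≤ (m : ℝ) ^ s / s := by
  induction m with
  | zero => simp [Real.zero_rpow hs.ne']
  | succ m ih =>
    rw [sum_range_succ]
    have h := one_step s hs hs1 m
    push_cast
    have e : ((m : ℝ) + 1) ^ s / s = (m : ℝ) ^ s / s + (((m : ℝ) + 1) ^ s - (m : ℝ) ^ s) / s := by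
      ring
    rw [e]
    linarith

theorem sum_Icc_rpow (s n : ℝ) (hs : 0 < s) (hs1 : s ≤ 1) (l r : ℤ) (hlr : l ≤ r)
    (hn : ((r - l : ℤ) : ℝ) + 1 ≤ n) :
    ∑ x ∈ Icc l r, (((x - l : ℤ) : ℝ) + 1) ^ (s - 1) ≤ n ^ s / s := by
  have h1 : ∑ x ∈ Icc l r, (((x - l : ℤ) : ℝ) + 1) ^ (s - 1) =
      ∑ k ∈ range (r + 1 - l).toNat, ((k : ℝ) + 1) ^ (s - 1) := by
    refine Finset.sum_nbij' (fun x => (x - l).toNat) (fun k => (k : ℤ) + l) ?_ ?_ ?_ ?_ ?_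
    · intro x hx
      rw [mem_Icc] at hx
      rw [mem_range]
      omega
    · intro k hk
      rw [mem_range] at hk
      rw [mem_Icc]
      omega
    · intro x hx
      rw [mem_Icc] at hx
      show (((x - l).toNat : ℕ) : ℤ) + l = x
      omega
    · intro k hk
      show ((k : ℤ) + l - l).toNat = k
      omega
    · intro x hx
      rw [mem_Icc] at hx
      have : (((x - l).toNat : ℕ) : ℝ) = ((x - l : ℤ) : ℝ) := by
        have h : (((x - l).toNat : ℕ) : ℤ) = x - l := Int.toNat_of_nonneg (by omega)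
        exact_mod_cast congrArg (fun z : ℤ => (z : ℝ)) h
      rw [this]
  rw [h1]
  refine (sum_range_rpow s hs hs1 _).trans ?_
  have h2 : (((r + 1 - l).toNat : ℕ) : ℝ) = ((r - l : ℤ) : ℝ) + 1 := by
    have h : (((r + 1 - l).toNat : ℕ) : ℤ) = (r - l) + 1 := by
      rw [Int.toNat_of_nonneg (by omega)]
      ring
    exact_mod_cast congrArg (fun z : ℤ => (z : ℝ)) h
  rw [h2]
  have h3 : (0 : ℝ) ≤ ((r - l : ℤ) : ℝ) + 1 := by
    have : (0 : ℝ) ≤ ((r - l : ℤ) : ℝ) := by exact_mod_cast (by omega : (0 : ℤ) ≤ r - l)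
    linarith
  exact div_le_div_of_nonneg_right (Real.rpow_le_rpow h3 hn hs.le) hs.le

theorem sum_refl (l r : ℤ) (f : ℤ → ℝ) :
    ∑ x ∈ Icc l r, f (r - x) = ∑ x ∈ Icc l r, f (x - l) := by
  refine Finset.sum_nbij' (fun x => l + r - x) (fun x => l + r - x) ?_ ?_ ?_ ?_ ?_
  · intro x hx
    rw [mem_Icc] at hx ⊢
    omega
  · intro x hx
    rw [mem_Icc] at hx ⊢
    omega
  · intro x hx
    show l + r - (l + r - x) = x
    omega
  · intro x hx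
    show l + r - (l + r - x) = x
    omega
  · intro x hx
    show f (r - x) = f (l + r - x - l)
    congr 1
    omega

theorem sum_two (s n : ℝ) (hs : 0 < s) (hs1 : s ≤ 1) (l r : ℤ) (hlr : l ≤ r)
    (hn : ((r - l : ℤ) : ℝ) + 1 ≤ n) :
    ∑ x ∈ Icc l r, ((((x - l : ℤ) : ℝ) + 1) ^ (s - 1) + (((r - x : ℤ) : ℝ) + 1) ^ (s - 1)) ≤
      2 * (n ^ s / s) := by
  rw [sum_add_distrib, sum_refl l r (fun z => ((z : ℝ) + 1) ^ (s - 1))]
  have := sum_Icc_rpow s n hs hs1 l r hlr hn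
  linarith

open Pool.Agent.Zk72.NS in
/-- the pointwise bound -/
theorem pointwise (D : Dm) (p : ℝ) (hp : 0 < p) (v : ℤ × ℤ) (h1 : D.l ≤ v.1) (h2 : v.1 ≤ D.r)
    (h3 : 0 ≤ v.2) (h4 : v.2 ≤ D.h) (hw : 2 * p ≤ ((D.r - D.l : ℤ) : ℝ)) (hh : 2 * p ≤ (D.h : ℝ)) :
    ((D.bd v : ℝ) + 1) ^ (-(11/12) : ℝ) * ((sec D v : ℝ) + 1) ^ (-(1/3) : ℝ) ≤
      ((((v.1 - D.l : ℤ) : ℝ) + 1) ^ ((1/12 : ℝ) - 1) + (((D.r - v.1 : ℤ) : ℝ) + 1) ^ ((1/12 : ℝ) - 1)) *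
        ((((v.2 - 0 : ℤ) : ℝ) + 1) ^ ((2/3 : ℝ) - 1) + (((D.h - v.2 : ℤ) : ℝ) + 1) ^ ((2/3 : ℝ) - 1)) +
      ((((v.1 - D.l : ℤ) : ℝ) + 1) ^ ((2/3 : ℝ) - 1) + (((D.r - v.1 : ℤ) : ℝ) + 1) ^ ((2/3 : ℝ) - 1)) *
        ((((v.2 - 0 : ℤ) : ℝ) + 1) ^ ((1/12 : ℝ) - 1) + (((D.h - v.2 : ℤ) : ℝ) + 1) ^ ((1/12 : ℝ) - 1)) +
      p ^ (-(1/3) : ℝ) *
        ((((v.1 - D.l : ℤ) : ℝ) + 1) ^ ((1/12 : ℝ) - 1) + (((D.r - v.1 : ℤ) : ℝ) + 1) ^ ((1/12 : ℝ) - 1)) +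
      p ^ (-(1/3) : ℝ) *
        ((((v.2 - 0 : ℤ) : ℝ) + 1) ^ ((1/12 : ℝ) - 1) + (((D.h - v.2 : ℤ) : ℝ) + 1) ^ ((1/12 : ℝ) - 1)) := by
  have e1 : (1/12 : ℝ) - 1 = -(11/12) := by norm_num
  have e2 : (2/3 : ℝ) - 1 = -(1/3) := by norm_num
  rw [e1, e2]
  obtain ⟨a, b⟩ := v
  simp only at h1 h2 h3 h4
  -- the four distances
  obtain ⟨d1, hd1⟩ : ∃ d, d = a - D.l := ⟨_, rfl⟩
  obtain ⟨d2, hd2⟩ : ∃ d, d = D.r - a := ⟨_, rfl⟩
  obtain ⟨d3, hd3⟩ : ∃ d, d = b - 0 := ⟨_, rfl⟩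
  obtain ⟨d4, hd4⟩ : ∃ d, d = D.h - b := ⟨_, rfl⟩
  have hb0 : b = d3 := by omega
  have hbd : D.bd (a, b) = min (min d1 d2) (min d3 d4) := by
    simp only [Dm.bd]
    rw [← hd1, ← hd2, ← hd4, ← hb0]
  have hsec : sec D (a, b) = min (min (max d1 d2) (max d3 d4))
      (min (min (max d1 d3) (max d1 d4)) (min (max d2 d3) (max d2 d4))) := by
    simp only [sec]
    rw [← hd1, ← hd2, ← hd4, ← hb0]
  rw [hbd, hsec]
  show _ ≤ ((((a - D.l : ℤ) : ℝ) + 1) ^ (-(11/12) : ℝ) + (((D.r - a : ℤ) : ℝ) + 1) ^ (-(11/12) : ℝ)) *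
        ((((b - 0 : ℤ) : ℝ) + 1) ^ (-(1/3) : ℝ) + (((D.h - b : ℤ) : ℝ) + 1) ^ (-(1/3) : ℝ)) +
      ((((a - D.l : ℤ) : ℝ) + 1) ^ (-(1/3) : ℝ) + (((D.r - a : ℤ) : ℝ) + 1) ^ (-(1/3) : ℝ)) *
        ((((b - 0 : ℤ) : ℝ) + 1) ^ (-(11/12) : ℝ) + (((D.h - b : ℤ) : ℝ) + 1) ^ (-(11/12) : ℝ)) +
      p ^ (-(1/3) : ℝ) *
        ((((a - D.l : ℤ) : ℝ) + 1) ^ (-(11/12) : ℝ) + (((D.r - a : ℤ) : ℝ) + 1) ^ (-(11/12) : ℝ)) +
      p ^ (-(1/3) : ℝ) *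
        ((((b - 0 : ℤ) : ℝ) + 1) ^ (-(11/12) : ℝ) + (((D.h - b : ℤ) : ℝ) + 1) ^ (-(11/12) : ℝ))
  rw [← hd1, ← hd2, ← hd3, ← hd4]
  have n1 : 0 ≤ d1 := by omega
  have n2 : 0 ≤ d2 := by omega
  have n3 : 0 ≤ d3 := by omega
  have n4 : 0 ≤ d4 := by omega
  have hw' : 2 * p ≤ (d1 : ℝ) + d2 := by
    have : D.r - D.l = d1 + d2 := by omega
    rw [this] at hw
    push_cast at hw
    exact hw
  have hh' : 2 * p ≤ (d3 : ℝ) + d4 := by
    have : D.h = d3 + d4 := by omega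
    rw [this] at hh
    push_cast at hh
    exact hh
  have F : ∀ d : ℤ, 0 ≤ d → 0 ≤ ((d : ℝ) + 1) ^ (-(11/12) : ℝ) := by
    intro d hd
    have : (0 : ℝ) ≤ d := by exact_mod_cast hd
    exact Real.rpow_nonneg (by linarith) _
  have G : ∀ d : ℤ, 0 ≤ d → 0 ≤ ((d : ℝ) + 1) ^ (-(1/3) : ℝ) := by
    intro d hd
    have : (0 : ℝ) ≤ d := by exact_mod_cast hd
    exact Real.rpow_nonneg (by linarith) _
  have P0 : 0 ≤ p ^ (-(1/3) : ℝ) := Real.rpow_nonneg hp.le _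
  have Q : ∀ d : ℤ, p ≤ (d : ℝ) → ((d : ℝ) + 1) ^ (-(1/3) : ℝ) ≤ p ^ (-(1/3) : ℝ) := by
    intro d hd
    exact Real.rpow_le_rpow_of_nonpos hp (by linarith) (by norm_num)
  have Mo : ∀ d e : ℤ, 0 ≤ d → d ≤ e →
      ((e : ℝ) + 1) ^ (-(1/3) : ℝ) ≤ ((d : ℝ) + 1) ^ (-(1/3) : ℝ) := by
    intro d e hd hde
    have h1 : (0 : ℝ) ≤ d := by exact_mod_cast hd
    have h2 : (d : ℝ) ≤ e := by exact_mod_cast hde
    exact Real.rpow_le_rpow_of_nonpos (by linarith) (by linarith) (by norm_num)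
  obtain ⟨i, hi⟩ : ∃ i, i = min (min d1 d2) (min d3 d4) := ⟨_, rfl⟩
  obtain ⟨j, hj⟩ : ∃ j, j = min (min (max d1 d2) (max d3 d4)) (min (min (max d1 d3) (max d1 d4))
        (min (max d2 d3) (max d2 d4))) := ⟨_, rfl⟩
  have i1 : i ≤ d1 := by rw [hi]; exact (min_le_left _ _).trans (min_le_left _ _)
  have i2 : i ≤ d2 := by rw [hi]; exact (min_le_left _ _).trans (min_le_right _ _)
  have i3 : i ≤ d3 := by rw [hi]; exact (min_le_right _ _).trans (min_le_left _ _)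
  have i4 : i ≤ d4 := by rw [hi]; exact (min_le_right _ _).trans (min_le_right _ _)
  have hi' : i = d1 ∨ i = d2 ∨ i = d3 ∨ i = d4 := by
    rw [hi]
    rcases min_choice (min d1 d2) (min d3 d4) with h | h
    · rcases min_choice d1 d2 with h' | h'
      · left; rw [h, h']
      · right; left; rw [h, h']
    · rcases min_choice d3 d4 with h' | h'
      · right; right; left; rw [h, h']
      · right; right; right; rw [h, h']
  have j1 : min d2 (min d3 d4) ≤ j := by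
    rw [hj]
    have a2 : min d2 (min d3 d4) ≤ d2 := min_le_left _ _
    have a3 : min d2 (min d3 d4) ≤ d3 := (min_le_right _ _).trans (min_le_left _ _)
    have a4 : min d2 (min d3 d4) ≤ d4 := (min_le_right _ _).trans (min_le_right _ _)
    exact le_min (le_min (a2.trans (le_max_right _ _)) (a3.trans (le_max_left _ _)))
      (le_min (le_min (a3.trans (le_max_right _ _)) (a4.trans (le_max_right _ _)))
        (le_min (a2.trans (le_max_left _ _)) (a2.trans (le_max_left _ _))))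
  have j2 : min d1 (min d3 d4) ≤ j := by
    rw [hj]
    have a1 : min d1 (min d3 d4) ≤ d1 := min_le_left _ _
    have a3 : min d1 (min d3 d4) ≤ d3 := (min_le_right _ _).trans (min_le_left _ _)
    have a4 : min d1 (min d3 d4) ≤ d4 := (min_le_right _ _).trans (min_le_right _ _)
    exact le_min (le_min (a1.trans (le_max_left _ _)) (a3.trans (le_max_left _ _)))
      (le_min (le_min (a1.trans (le_max_left _ _)) (a1.trans (le_max_left _ _)))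
        (le_min (a3.trans (le_max_right _ _)) (a4.trans (le_max_right _ _))))
  have j3 : min d4 (min d1 d2) ≤ j := by
    rw [hj]
    have a4 : min d4 (min d1 d2) ≤ d4 := min_le_left _ _
    have a1 : min d4 (min d1 d2) ≤ d1 := (min_le_right _ _).trans (min_le_left _ _)
    have a2 : min d4 (min d1 d2) ≤ d2 := (min_le_right _ _).trans (min_le_right _ _)
    exact le_min (le_min (a1.trans (le_max_left _ _)) (a4.trans (le_max_right _ _)))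
      (le_min (le_min (a1.trans (le_max_left _ _)) (a1.trans (le_max_left _ _)))
        (le_min (a2.trans (le_max_left _ _)) (a2.trans (le_max_left _ _))))
  have j4 : min d3 (min d1 d2) ≤ j := by
    rw [hj]
    have a3 : min d3 (min d1 d2) ≤ d3 := min_le_left _ _
    have a1 : min d3 (min d1 d2) ≤ d1 := (min_le_right _ _).trans (min_le_left _ _)
    have a2 : min d3 (min d1 d2) ≤ d2 := (min_le_right _ _).trans (min_le_right _ _)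
    exact le_min (le_min (a1.trans (le_max_left _ _)) (a3.trans (le_max_left _ _)))
      (le_min (le_min (a1.trans (le_max_left _ _)) (a1.trans (le_max_left _ _)))
        (le_min (a2.trans (le_max_left _ _)) (a2.trans (le_max_left _ _))))
  rw [← hi, ← hj]
  clear hbd hsec hi hj
  obtain ⟨f1, hf1⟩ : ∃ z, z = ((d1 : ℝ) + 1) ^ (-(11/12) : ℝ) := ⟨_, rfl⟩
  obtain ⟨f2, hf2⟩ : ∃ z, z = ((d2 : ℝ) + 1) ^ (-(11/12) : ℝ) := ⟨_, rfl⟩
  obtain ⟨f3, hf3⟩ : ∃ z, z = ((d3 : ℝ) + 1) ^ (-(11/12) : ℝ) := ⟨_, rfl⟩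
  obtain ⟨f4, hf4⟩ : ∃ z, z = ((d4 : ℝ) + 1) ^ (-(11/12) : ℝ) := ⟨_, rfl⟩
  obtain ⟨g1, hg1⟩ : ∃ z, z = ((d1 : ℝ) + 1) ^ (-(1/3) : ℝ) := ⟨_, rfl⟩
  obtain ⟨g2, hg2⟩ : ∃ z, z = ((d2 : ℝ) + 1) ^ (-(1/3) : ℝ) := ⟨_, rfl⟩
  obtain ⟨g3, hg3⟩ : ∃ z, z = ((d3 : ℝ) + 1) ^ (-(1/3) : ℝ) := ⟨_, rfl⟩
  obtain ⟨g4, hg4⟩ : ∃ z, z = ((d4 : ℝ) + 1) ^ (-(1/3) : ℝ) := ⟨_, rfl⟩
  obtain ⟨gj, hgj⟩ : ∃ z, z = ((j : ℝ) + 1) ^ (-(1/3) : ℝ) := ⟨_, rfl⟩
  obtain ⟨P, hP⟩ : ∃ z, z = p ^ (-(1/3) : ℝ) := ⟨_, rfl⟩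
  have pf1 : 0 ≤ f1 := hf1 ▸ F d1 n1
  have pf2 : 0 ≤ f2 := hf2 ▸ F d2 n2
  have pf3 : 0 ≤ f3 := hf3 ▸ F d3 n3
  have pf4 : 0 ≤ f4 := hf4 ▸ F d4 n4
  have pg1 : 0 ≤ g1 := hg1 ▸ G d1 n1
  have pg2 : 0 ≤ g2 := hg2 ▸ G d2 n2
  have pg3 : 0 ≤ g3 := hg3 ▸ G d3 n3
  have pg4 : 0 ≤ g4 := hg4 ▸ G d4 n4
  have pP : 0 ≤ P := hP ▸ P0
  have r11 := mul_nonneg pf1 pg3
  have r12 := mul_nonneg pf1 pg4
  have r21 := mul_nonneg pf2 pg3
  have r22 := mul_nonneg pf2 pg4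
  have r31 := mul_nonneg pf3 pg1
  have r32 := mul_nonneg pf3 pg2
  have r41 := mul_nonneg pf4 pg1
  have r42 := mul_nonneg pf4 pg2
  have s1 := mul_nonneg pP pf1
  have s2 := mul_nonneg pP pf2
  have s3 := mul_nonneg pP pf3
  have s4 := mul_nonneg pP pf4
  rw [← hf1, ← hf2, ← hf3, ← hf4, ← hg1, ← hg2, ← hg3, ← hg4, ← hgj, ← hP]
  rcases hi' with h | h | h | h
  · -- i = d1
    have hg : gj ≤ g3 + g4 + P := by
      rcases min_choice d2 (min d3 d4) with h' | h'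
      · rw [h'] at j1
        have h5 : (d1 : ℝ) ≤ d2 := by exact_mod_cast (h ▸ i2)
        have h6 : (d2 : ℝ) ≤ j := by exact_mod_cast j1
        have := Q j (by linarith)
        rw [← hgj, ← hP] at this
        linarith
      · rw [h'] at j1
        rcases min_choice d3 d4 with h'' | h''
        · rw [h''] at j1
          have := Mo d3 j n3 j1
          rw [← hgj, ← hg3] at this
          linarith
        · rw [h''] at j1
          have := Mo d4 j n4 j1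
          rw [← hgj, ← hg4] at this
          linarith
    have h7 := mul_le_mul_of_nonneg_left hg pf1
    rw [h, ← hf1]
    linarith
  · have hg : gj ≤ g3 + g4 + P := by
      rcases min_choice d1 (min d3 d4) with h' | h'
      · rw [h'] at j2
        have h5 : (d2 : ℝ) ≤ d1 := by exact_mod_cast (h ▸ i1)
        have h6 : (d1 : ℝ) ≤ j := by exact_mod_cast j2
        have := Q j (by linarith)
        rw [← hgj, ← hP] at this
        linarith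
      · rw [h'] at j2
        rcases min_choice d3 d4 with h'' | h''
        · rw [h''] at j2
          have := Mo d3 j n3 j2
          rw [← hgj, ← hg3] at this
          linarith
        · rw [h''] at j2
          have := Mo d4 j n4 j2
          rw [← hgj, ← hg4] at this
          linarith
    have h7 := mul_le_mul_of_nonneg_left hg pf2
    rw [h, ← hf2]
    linarith
  · have hg : gj ≤ g1 + g2 + P := by
      rcases min_choice d4 (min d1 d2) with h' | h'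
      · rw [h'] at j3
        have h5 : (d3 : ℝ) ≤ d4 := by exact_mod_cast (h ▸ i4)
        have h6 : (d4 : ℝ) ≤ j := by exact_mod_cast j3
        have := Q j (by linarith)
        rw [← hgj, ← hP] at this
        linarith
      · rw [h'] at j3
        rcases min_choice d1 d2 with h'' | h''
        · rw [h''] at j3
          have := Mo d1 j n1 j3
          rw [← hgj, ← hg1] at this
          linarith
        · rw [h''] at j3
          have := Mo d2 j n2 j3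
          rw [← hgj, ← hg2] at this
          linarith
    have h7 := mul_le_mul_of_nonneg_left hg pf3
    rw [h, ← hf3]
    linarith
  · have hg : gj ≤ g1 + g2 + P := by
      rcases min_choice d3 (min d1 d2) with h' | h'
      · rw [h'] at j4
        have h5 : (d4 : ℝ) ≤ d3 := by exact_mod_cast (h ▸ i3)
        have h6 : (d3 : ℝ) ≤ j := by exact_mod_cast j4
        have := Q j (by linarith)
        rw [← hgj, ← hP] at this
        linarith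
      · rw [h'] at j4
        rcases min_choice d1 d2 with h'' | h''
        · rw [h''] at j4
          have := Mo d1 j n1 j4
          rw [← hgj, ← hg1] at this
          linarith
        · rw [h''] at j4
          have := Mo d2 j n2 j4
          rw [← hgj, ← hg2] at this
          linarith
    have h7 := mul_le_mul_of_nonneg_left hg pf4
    rw [h, ← hf4]
    linarith

open Pool.Agent.Zk72.NS in
theorem t_SUM : S_SUM := by
  intro κ hκ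
  refine ⟨288 + 192 * (κ / 2) ^ (-(1/3) : ℝ), by positivity, ?_⟩
  intro D n hS hn
  have hn0 : (0 : ℝ) < n := by linarith
  set p := κ / 2 * n with hp
  have hp0 : 0 < p := by positivity
  have hlr : D.l ≤ D.r := by have := hS.ok.l_neg; have := hS.ok.r_pos; omega
  have h0h : (0 : ℤ) ≤ D.h := by have := hS.ok.h_pos; omega
  have hw : 2 * p ≤ ((D.r - D.l : ℤ) : ℝ) := by
    have h1 := hS.l_ge
    have h2 := hS.r_ge
    push_cast
    rw [hp]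
    have : (0 : ℝ) ≤ κ * n := by positivity
    linarith
  have hh : 2 * p ≤ (D.h : ℝ) := by
    have h1 := hS.h_ge
    rw [hp]
    linarith
  have hwn : ((D.r - D.l : ℤ) : ℝ) + 1 ≤ 2 * n := by
    have := hS.w_le
    linarith
  have hhn : ((D.h - 0 : ℤ) : ℝ) + 1 ≤ 2 * n := by
    have := hS.h_le
    rw [sub_zero]
    linarith
  set fx : ℤ → ℝ := fun x => (((x - D.l : ℤ) : ℝ) + 1) ^ ((1/12 : ℝ) - 1) +
    (((D.r - x : ℤ) : ℝ) + 1) ^ ((1/12 : ℝ) - 1) with hfx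
  set gx : ℤ → ℝ := fun x => (((x - D.l : ℤ) : ℝ) + 1) ^ ((2/3 : ℝ) - 1) +
    (((D.r - x : ℤ) : ℝ) + 1) ^ ((2/3 : ℝ) - 1) with hgx
  set fy : ℤ → ℝ := fun y => (((y - 0 : ℤ) : ℝ) + 1) ^ ((1/12 : ℝ) - 1) +
    (((D.h - y : ℤ) : ℝ) + 1) ^ ((1/12 : ℝ) - 1) with hfy
  set gy : ℤ → ℝ := fun y => (((y - 0 : ℤ) : ℝ) + 1) ^ ((2/3 : ℝ) - 1) +
    (((D.h - y : ℤ) : ℝ) + 1) ^ ((2/3 : ℝ) - 1) with hgy
  have hsum : ∑ v ∈ Icc D.l D.r ×ˢ Icc 0 D.h,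
      ((D.bd v : ℝ) + 1) ^ (-(11/12) : ℝ) * ((sec D v : ℝ) + 1) ^ (-(1/3) : ℝ) ≤
      ∑ v ∈ Icc D.l D.r ×ˢ Icc 0 D.h, (fx v.1 * gy v.2 + gx v.1 * fy v.2 +
        p ^ (-(1/3) : ℝ) * fx v.1 + p ^ (-(1/3) : ℝ) * fy v.2) := by
    refine sum_le_sum fun v hv => ?_
    rw [mem_product, mem_Icc, mem_Icc] at hv
    exact pointwise D p hp0 v hv.1.1 hv.1.2 hv.2.1 hv.2.2 hw hh
  refine hsum.trans ?_
  have hA1 := sum_two (1/12) (2 * n) (by norm_num) (by norm_num) D.l D.r hlr hwn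
  have hA2 := sum_two (2/3) (2 * n) (by norm_num) (by norm_num) D.l D.r hlr hwn
  have hB1 := sum_two (1/12) (2 * n) (by norm_num) (by norm_num) 0 D.h h0h hhn
  have hB2 := sum_two (2/3) (2 * n) (by norm_num) (by norm_num) 0 D.h h0h hhn
  change ∑ x ∈ Icc D.l D.r, fx x ≤ _ at hA1
  change ∑ x ∈ Icc D.l D.r, gx x ≤ _ at hA2
  change ∑ x ∈ Icc 0 D.h, fy x ≤ _ at hB1
  change ∑ x ∈ Icc 0 D.h, gy x ≤ _ at hB2
  have nn : ∀ (s : ℝ) (l r x : ℤ), x ∈ Icc l r →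
      0 ≤ (((x - l : ℤ) : ℝ) + 1) ^ s + (((r - x : ℤ) : ℝ) + 1) ^ s := by
    intro s l r x hx
    rw [mem_Icc] at hx
    have h1 : (0 : ℝ) ≤ ((x - l : ℤ) : ℝ) := by exact_mod_cast (by omega : (0 : ℤ) ≤ x - l)
    have h2 : (0 : ℝ) ≤ ((r - x : ℤ) : ℝ) := by exact_mod_cast (by omega : (0 : ℤ) ≤ r - x)
    exact add_nonneg (Real.rpow_nonneg (by linarith) _) (Real.rpow_nonneg (by linarith) _)
  have pfx : 0 ≤ ∑ x ∈ Icc D.l D.r, fx x := sum_nonneg fun x hx => nn _ _ _ x hx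
  have pgx : 0 ≤ ∑ x ∈ Icc D.l D.r, gx x := sum_nonneg fun x hx => nn _ _ _ x hx
  have pfy : 0 ≤ ∑ x ∈ Icc 0 D.h, fy x := sum_nonneg fun x hx => nn _ _ _ x hx
  have pgy : 0 ≤ ∑ x ∈ Icc 0 D.h, gy x := sum_nonneg fun x hx => nn _ _ _ x hx
  have ex : ∑ v ∈ Icc D.l D.r ×ˢ Icc 0 D.h, (fx v.1 * gy v.2 + gx v.1 * fy v.2 +
        p ^ (-(1/3) : ℝ) * fx v.1 + p ^ (-(1/3) : ℝ) * fy v.2) =
      (∑ x ∈ Icc D.l D.r, fx x) * (∑ y ∈ Icc 0 D.h, gy y) +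
      (∑ x ∈ Icc D.l D.r, gx x) * (∑ y ∈ Icc 0 D.h, fy y) +
      p ^ (-(1/3) : ℝ) * ((∑ x ∈ Icc D.l D.r, fx x) * (((D.h - 0 : ℤ) : ℝ) + 1)) +
      p ^ (-(1/3) : ℝ) * ((((D.r - D.l : ℤ) : ℝ) + 1) * (∑ y ∈ Icc 0 D.h, fy y)) := by
    rw [sum_add_distrib, sum_add_distrib, sum_add_distrib, sum_product, sum_product, sum_product,
      sum_product, sum_mul_sum, sum_mul_sum]
    have c1 : ((Icc (0 : ℤ) D.h).card : ℝ) = ((D.h - 0 : ℤ) : ℝ) + 1 := by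
      rw [Int.card_Icc]
      have h : (((D.h + 1 - 0).toNat : ℕ) : ℤ) = (D.h - 0) + 1 := by
        rw [Int.toNat_of_nonneg (by omega)]
        ring
      exact_mod_cast congrArg (fun z : ℤ => (z : ℝ)) h
    have c2 : ((Icc D.l D.r).card : ℝ) = ((D.r - D.l : ℤ) : ℝ) + 1 := by
      rw [Int.card_Icc]
      have h : (((D.r + 1 - D.l).toNat : ℕ) : ℤ) = (D.r - D.l) + 1 := by
        rw [Int.toNat_of_nonneg (by omega)]
        ring
      exact_mod_cast congrArg (fun z : ℤ => (z : ℝ)) h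
    congr 1
    · congr 1
      simp only [sum_const, nsmul_eq_mul]
      rw [c1, ← mul_sum, ← mul_sum]
      ring
    · simp only [← mul_sum]
      rw [sum_const, nsmul_eq_mul, c2]
  rw [ex]
  -- the powers
  have p1 : (2 * n) ^ (1/12 : ℝ) * (2 * n) ^ (2/3 : ℝ) ≤ 2 * n ^ (3/4 : ℝ) := by
    rw [← Real.rpow_add (by positivity), Real.mul_rpow (by norm_num) hn0.le]
    have e : (1/12 : ℝ) + 2/3 = 3/4 := by norm_num
    rw [e]
    have : (2 : ℝ) ^ (3/4 : ℝ) ≤ 2 := by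
      calc (2 : ℝ) ^ (3/4 : ℝ) ≤ 2 ^ (1 : ℝ) :=
            Real.rpow_le_rpow_of_exponent_le (by norm_num) (by norm_num)
        _ = 2 := Real.rpow_one 2
    exact mul_le_mul_of_nonneg_right this (Real.rpow_nonneg hn0.le _)
  have p2 : p ^ (-(1/3) : ℝ) * (n * (2 * n) ^ (1/12 : ℝ)) ≤
      2 * (κ / 2) ^ (-(1/3) : ℝ) * n ^ (3/4 : ℝ) := by
    rw [hp, Real.mul_rpow (by positivity) hn0.le, Real.mul_rpow (by norm_num) hn0.le]
    have h2 : (2 : ℝ) ^ (1/12 : ℝ) ≤ 2 := by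
      calc (2 : ℝ) ^ (1/12 : ℝ) ≤ 2 ^ (1 : ℝ) :=
            Real.rpow_le_rpow_of_exponent_le (by norm_num) (by norm_num)
        _ = 2 := Real.rpow_one 2
    have h3 : n ^ (-(1/3) : ℝ) * (n * n ^ (1/12 : ℝ)) = n ^ (3/4 : ℝ) := by
      nth_rewrite 2 [← Real.rpow_one n]
      rw [← Real.rpow_add hn0, ← Real.rpow_add hn0]
      norm_num
    calc (κ / 2) ^ (-(1/3) : ℝ) * n ^ (-(1/3) : ℝ) * (n * (2 ^ (1/12 : ℝ) * n ^ (1/12 : ℝ)))
        = 2 ^ (1/12 : ℝ) * ((κ / 2) ^ (-(1/3) : ℝ) * (n ^ (-(1/3) : ℝ) * (n * n ^ (1/12 : ℝ)))) := by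
          ring
      _ = 2 ^ (1/12 : ℝ) * ((κ / 2) ^ (-(1/3) : ℝ) * n ^ (3/4 : ℝ)) := by rw [h3]
      _ ≤ 2 * ((κ / 2) ^ (-(1/3) : ℝ) * n ^ (3/4 : ℝ)) :=
          mul_le_mul_of_nonneg_right h2 (by positivity)
      _ = _ := by ring
  have q0 : 0 ≤ p ^ (-(1/3) : ℝ) := Real.rpow_nonneg hp0.le _
  have r0 : (0 : ℝ) ≤ (2 * n) ^ (1/12 : ℝ) := by positivity
  have r1 : (0 : ℝ) ≤ (2 * n) ^ (2/3 : ℝ) := by positivity
  have t1 : (∑ x ∈ Icc D.l D.r, fx x) * (∑ y ∈ Icc 0 D.h, gy y) ≤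
      72 * ((2 * n) ^ (1/12 : ℝ) * (2 * n) ^ (2/3 : ℝ)) := by
    calc (∑ x ∈ Icc D.l D.r, fx x) * (∑ y ∈ Icc 0 D.h, gy y)
        ≤ (2 * ((2 * n) ^ (1/12 : ℝ) / (1/12))) * (2 * ((2 * n) ^ (2/3 : ℝ) / (2/3))) :=
          mul_le_mul hA1 hB2 pgy (by positivity)
      _ = _ := by ring
  have t2 : (∑ x ∈ Icc D.l D.r, gx x) * (∑ y ∈ Icc 0 D.h, fy y) ≤
      72 * ((2 * n) ^ (1/12 : ℝ) * (2 * n) ^ (2/3 : ℝ)) := by
    calc (∑ x ∈ Icc D.l D.r, gx x) * (∑ y ∈ Icc 0 D.h, fy y)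
        ≤ (2 * ((2 * n) ^ (2/3 : ℝ) / (2/3))) * (2 * ((2 * n) ^ (1/12 : ℝ) / (1/12))) :=
          mul_le_mul hA2 hB1 pfy (by positivity)
      _ = _ := by ring
  have nh : (0 : ℝ) ≤ ((D.h - 0 : ℤ) : ℝ) + 1 := by
    have : (0 : ℝ) ≤ ((D.h - 0 : ℤ) : ℝ) := by exact_mod_cast (by omega : (0 : ℤ) ≤ D.h - 0)
    linarith
  have nw : (0 : ℝ) ≤ ((D.r - D.l : ℤ) : ℝ) + 1 := by
    have : (0 : ℝ) ≤ ((D.r - D.l : ℤ) : ℝ) := by exact_mod_cast (by omega : (0 : ℤ) ≤ D.r - D.l)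
    linarith
  have t3 : (∑ x ∈ Icc D.l D.r, fx x) * (((D.h - 0 : ℤ) : ℝ) + 1) ≤
      48 * (n * (2 * n) ^ (1/12 : ℝ)) := by
    calc (∑ x ∈ Icc D.l D.r, fx x) * (((D.h - 0 : ℤ) : ℝ) + 1)
        ≤ (2 * ((2 * n) ^ (1/12 : ℝ) / (1/12))) * (2 * n) :=
          mul_le_mul hA1 hhn nh (by positivity)
      _ = _ := by ring
  have t4 : (((D.r - D.l : ℤ) : ℝ) + 1) * (∑ y ∈ Icc 0 D.h, fy y) ≤
      48 * (n * (2 * n) ^ (1/12 : ℝ)) := by
    calc (((D.r - D.l : ℤ) : ℝ) + 1) * (∑ y ∈ Icc 0 D.h, fy y)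
        ≤ (2 * n) * (2 * ((2 * n) ^ (1/12 : ℝ) / (1/12))) :=
          mul_le_mul hwn hB1 pfy (by positivity)
      _ = _ := by ring
  have t3' := mul_le_mul_of_nonneg_left t3 q0
  have t4' := mul_le_mul_of_nonneg_left t4 q0
  have e3 : p ^ (-(1/3) : ℝ) * (48 * (n * (2 * n) ^ (1/12 : ℝ))) =
      48 * (p ^ (-(1/3) : ℝ) * (n * (2 * n) ^ (1/12 : ℝ))) := by ring
  rw [e3] at t3' t4'
  have e4 : (288 + 192 * (κ / 2) ^ (-(1/3) : ℝ)) * n ^ (3/4 : ℝ) =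
      144 * (2 * n ^ (3/4 : ℝ)) + 96 * (2 * (κ / 2) ^ (-(1/3) : ℝ) * n ^ (3/4 : ℝ)) := by ring
  rw [e4]
  linarith

end Pool.Agent.Zk96.NS
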